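import Pool.Agent.Run7.h148.AX.Stm1

/-!
Pieces NLB and NLM of project AX (helper148): the pointwise bound of `nl` and its joint
measurability.
-/

set_option autoImplicit false

open MeasureTheory Set Filter Topology
open scoped ENNReal ContDiff FourierTransform
open Pool.Agent.Run7.h148.AX

namespace Pool.Agent.Run7.h997.AX

lemma sum_abs_le (ξ : E3) : ∑ j, |ξ j| ≤ 7 / 4 * ‖ξ‖ := by
  have h1 : ‖ξ‖ ^ 2 = ∑ j, ξ j ^ 2 := by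
    rw [EuclideanSpace.norm_sq_eq]; simp [sq_abs]
  have h2 : (∑ j, |ξ j|) ^ 2 ≤ 3 * ‖ξ‖ ^ 2 := by
    rw [h1]
    simp only [Fin.sum_univ_three]
    nlinarith [sq_nonneg (|ξ 0| - |ξ 1|), sq_nonneg (|ξ 0| - |ξ 2|), sq_nonneg (|ξ 1| - |ξ 2|),
      sq_abs (ξ 0), sq_abs (ξ 1), sq_abs (ξ 2)]
  have h3 : 0 ≤ ∑ j, |ξ j| := Finset.sum_nonneg fun _ _ => abs_nonneg _
  have h4 := norm_nonneg ξ
  by_contra h
  push Not at h
  have h5 : 0 < ∑ j, |ξ j| + 7 / 4 * ‖ξ‖ := by linarith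
  nlinarith [mul_pos (sub_pos.2 h) h5]

lemma norm_dt_le (ξ : E3) (v : C3) : ‖dt ξ v‖ ≤ 7 / 4 * ‖ξ‖ * ‖v‖ := by
  unfold dt
  calc ‖∑ j, (ξ j : ℂ) * v j‖ ≤ ∑ j, ‖(ξ j : ℂ) * v j‖ := norm_sum_le _ _
    _ ≤ ∑ j, |ξ j| * ‖v‖ := by
        refine Finset.sum_le_sum fun j _ => ?_
        rw [norm_mul, Complex.norm_real, Real.norm_eq_abs]
        exact mul_le_mul_of_nonneg_left (norm_le_pi_norm v j) (abs_nonneg _)
    _ = (∑ j, |ξ j|) * ‖v‖ := (Finset.sum_mul _ _ _).symm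
    _ ≤ _ := mul_le_mul_of_nonneg_right (sum_abs_le ξ) (norm_nonneg _)

lemma norm_lp_le (ξ : E3) (v : C3) : ‖lp ξ v‖ ≤ 11 / 4 * ‖v‖ := by
  refine (pi_norm_le_iff_of_nonneg (by positivity)).2 fun k => ?_
  unfold Pool.Agent.Run7.h148.AX.lp
  have h0 : ‖v k‖ ≤ ‖v‖ := norm_le_pi_norm v k
  have hv := norm_nonneg v
  rcases eq_or_ne ξ 0 with h | h
  · simp only [h, norm_zero]
    simp
    linarith
  · have hp : 0 < ‖ξ‖ := norm_pos_iff.2 h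
    have h2 : ‖(ξ k : ℂ) * dt ξ v / ((‖ξ‖ ^ 2 : ℝ) : ℂ)‖ ≤ 7 / 4 * ‖v‖ := by
      rw [norm_div, norm_mul, Complex.norm_real, Complex.norm_real, Real.norm_eq_abs,
        Real.norm_eq_abs, abs_of_nonneg (by positivity : 0 ≤ ‖ξ‖ ^ 2),
        div_le_iff₀ (by positivity)]
      have h1 : |ξ k| ≤ ‖ξ‖ := by
        simpa using PiLp.norm_apply_le ξ k
      calc |ξ k| * ‖dt ξ v‖ ≤ ‖ξ‖ * (7 / 4 * ‖ξ‖ * ‖v‖) :=
            mul_le_mul h1 (norm_dt_le ξ v) (norm_nonneg _) hp.le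
        _ = _ := by ring
    calc ‖v k - (ξ k : ℂ) * dt ξ v / ((‖ξ‖ ^ 2 : ℝ) : ℂ)‖
        ≤ ‖v k‖ + ‖(ξ k : ℂ) * dt ξ v / ((‖ξ‖ ^ 2 : ℝ) : ℂ)‖ := norm_sub_le _ _
      _ ≤ 11 / 4 * ‖v‖ := by linarith

theorem t_NLB : S_NLB := by
  intro a b ξ
  set w : C3 := ∫ η, dt ξ (a (ξ - η)) • b η with hw
  have h1 : ‖w‖ₑ ≤ ENNReal.ofReal (7 / 4 * ‖ξ‖) * cv (fun η => ‖a η‖ₑ) (fun η => ‖b η‖ₑ) ξ := by
    calc ‖w‖ₑ ≤ ∫⁻ η, ‖dt ξ (a (ξ - η)) • b η‖ₑ := enorm_integral_le_lintegral_enorm _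
      _ ≤ ∫⁻ η, ENNReal.ofReal (7 / 4 * ‖ξ‖) * (‖a (ξ - η)‖ₑ * ‖b η‖ₑ) := by
          refine lintegral_mono fun η => ?_
          show ‖dt ξ (a (ξ - η)) • b η‖ₑ
            ≤ ENNReal.ofReal (7 / 4 * ‖ξ‖) * (‖a (ξ - η)‖ₑ * ‖b η‖ₑ)
          rw [enorm_smul, ← mul_assoc]
          gcongr
          rw [← ofReal_norm, ← ofReal_norm, ← ENNReal.ofReal_mul (by positivity)]
          exact ENNReal.ofReal_le_ofReal (norm_dt_le _ _)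
      _ = _ := by
          rw [lintegral_const_mul' _ _ ENNReal.ofReal_ne_top]
          rfl
  have h2 : ‖lp ξ w‖ₑ ≤ ENNReal.ofReal (11 / 4) * ‖w‖ₑ := by
    rw [← ofReal_norm, ← ofReal_norm, ← ENNReal.ofReal_mul (by positivity)]
    exact ENNReal.ofReal_le_ofReal (norm_lp_le _ _)
  have h3 : ‖nl a b ξ‖ₑ = ENNReal.ofReal (2 * Real.pi) * ‖lp ξ w‖ₑ := by
    unfold nl
    rw [enorm_smul, ← hw]
    congr 1
    rw [← ofReal_norm]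
    congr 1
    simp [abs_of_pos Real.pi_pos]
  have h4 : ENNReal.ofReal (2 * Real.pi) * (ENNReal.ofReal (11 / 4) *
      ENNReal.ofReal (7 / 4 * ‖ξ‖)) ≤ 40 * nw ξ := by
    unfold nw
    rw [← ENNReal.ofReal_mul (by positivity), ← ENNReal.ofReal_mul (by positivity),
      show (40 : ℝ≥0∞) = ENNReal.ofReal 40 by simp, ← ENNReal.ofReal_mul (by positivity)]
    refine ENNReal.ofReal_le_ofReal ?_
    have h5 := Real.pi_lt_d2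
    have h6 := norm_nonneg ξ
    nlinarith [mul_nonneg h6 (sub_nonneg.2 h5.le)]
  calc ‖nl a b ξ‖ₑ = ENNReal.ofReal (2 * Real.pi) * ‖lp ξ w‖ₑ := h3
    _ ≤ ENNReal.ofReal (2 * Real.pi) * (ENNReal.ofReal (11 / 4) *
        (ENNReal.ofReal (7 / 4 * ‖ξ‖) * cv (fun η => ‖a η‖ₑ) (fun η => ‖b η‖ₑ) ξ)) := by
        gcongr
        exact h2.trans (by gcongr)
    _ = (ENNReal.ofReal (2 * Real.pi) * (ENNReal.ofReal (11 / 4) *
      ENNReal.ofReal (7 / 4 * ‖ξ‖))) * cv (fun η => ‖a η‖ₑ) (fun η => ‖b η‖ₑ) ξ := by ring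
    _ ≤ _ := by gcongr

end Pool.Agent.Run7.h997.AX
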