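import Pool.Agent.Run7.h148.AX.Stm1

/-!
Piece NLM of project AX (helper148): joint measurability of `nl`.
-/

set_option autoImplicit false

open MeasureTheory Set Filter Topology
open scoped ENNReal ContDiff FourierTransform
open Pool.Agent.Run7.h148.AX

namespace Pool.Agent.Run7.h997.AX

lemma meas_coord (j : Fin 3) : Measurable fun ξ : E3 => (ξ j : ℂ) := by
  have : Continuous fun ξ : E3 => (ξ j : ℂ) := by fun_prop
  exact this.measurable

lemma meas_dt {α : Type*} [MeasurableSpace α] {f : α → E3} {g : α → C3} (hf : Measurable f)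
    (hg : Measurable g) : Measurable fun p => dt (f p) (g p) := by
  unfold dt
  refine Finset.measurable_sum _ fun j _ => ?_
  exact ((meas_coord j).comp hf).mul ((measurable_pi_apply j).comp hg)

lemma meas_lp {α : Type*} [MeasurableSpace α] {f : α → E3} {g : α → C3} (hf : Measurable f)
    (hg : Measurable g) : Measurable fun p => lp (f p) (g p) := by
  refine measurable_pi_iff.2 fun k => ?_
  unfold Pool.Agent.Run7.h148.AX.lp
  refine ((measurable_pi_apply k).comp hg).sub ?_
  refine (((meas_coord k).comp hf).mul (meas_dt hf hg)).div ?_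
  exact Complex.measurable_ofReal.comp (hf.norm.pow_const 2)

theorem t_NLM : S_NLM := by
  intro a b ha hb
  have h1 : Measurable fun q : (ℝ × E3) × E3 => a q.1.1 (q.1.2 - q.2) := by
    have := ha.comp ((measurable_fst.comp measurable_fst).prodMk
      ((measurable_snd.comp measurable_fst).sub measurable_snd) :
      Measurable fun q : (ℝ × E3) × E3 => (q.1.1, q.1.2 - q.2))
    exact this
  have h2 : Measurable fun q : (ℝ × E3) × E3 => b q.1.1 q.2 := by
    have := hb.comp ((measurable_fst.comp measurable_fst).prodMk measurable_snd :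
      Measurable fun q : (ℝ × E3) × E3 => (q.1.1, q.2))
    exact this
  have h3 : Measurable fun q : (ℝ × E3) × E3 =>
      dt q.1.2 (a q.1.1 (q.1.2 - q.2)) • b q.1.1 q.2 :=
    (meas_dt (measurable_snd.comp measurable_fst) h1).smul h2
  have h4 : Measurable fun p : ℝ × E3 => ∫ η, dt p.2 (a p.1 (p.2 - η)) • b p.1 η :=
    (h3.stronglyMeasurable.integral_prod_right').measurable
  have h5 : Measurable fun p : ℝ × E3 =>
      Pool.Agent.Run7.h148.AX.lp p.2 (∫ η, dt p.2 (a p.1 (p.2 - η)) • b p.1 η) :=
    meas_lp measurable_snd h4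
  exact h5.const_smul (-(2 * Real.pi * Complex.I) : ℂ)

end Pool.Agent.Run7.h997.AX
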