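import Pool.Agent.Run7.h148.AX.Stm1

/-!
Piece FI1 of project AX (helper148): inverse Fourier transforms of functions with all moments.
-/

set_option autoImplicit false

open MeasureTheory Set Filter Topology
open scoped ENNReal ContDiff FourierTransform
open Pool.Agent.Run7.h148.AX

namespace Pool.Agent.Run7.h997.AX

lemma int_mom {a : E3 → ℂ} (ha : Measurable a)
    (h : ∀ k : ℕ, (∫⁻ ξ, wk k ξ * ‖a ξ‖ₑ) < ⊤) (n : ℕ) :
    Integrable fun v : E3 => ‖v‖ ^ n * ‖a v‖ := by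
  refine ⟨((measurable_norm.pow_const n).mul ha.norm).aestronglyMeasurable, ?_⟩
  refine lt_of_le_of_lt (lintegral_mono fun v => ?_) (h n)
  show ‖‖v‖ ^ n * ‖a v‖‖ₑ ≤ wk n v * ‖a v‖ₑ
  have h1 : ‖‖a v‖‖ₑ = ‖a v‖ₑ := enorm_norm _
  rw [enorm_mul, h1]
  gcongr
  rw [Real.enorm_of_nonneg (by positivity)]
  exact ENNReal.ofReal_le_ofReal (pow_le_pow_left₀ (norm_nonneg _) (by linarith) n)

lemma int_mom_neg {a : E3 → ℂ} (ha : Measurable a)
    (h : ∀ k : ℕ, (∫⁻ ξ, wk k ξ * ‖a ξ‖ₑ) < ⊤) (n : ℕ) :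
    Integrable fun v : E3 => ‖v‖ ^ n * ‖a (-v)‖ := by
  have := (int_mom ha h n).comp_neg
  simpa using this

lemma int_self {a : E3 → ℂ} (ha : Measurable a)
    (h : ∀ k : ℕ, (∫⁻ ξ, wk k ξ * ‖a ξ‖ₑ) < ⊤) : Integrable a := by
  have := int_mom ha h 0
  simp only [pow_zero, one_mul] at this
  exact (integrable_norm_iff ha.aestronglyMeasurable).1 this

lemma int_le {a : E3 → ℂ} (ha : Measurable a)
    (h : ∀ k : ℕ, (∫⁻ ξ, wk k ξ * ‖a ξ‖ₑ) < ⊤) (n : ℕ) :
    ∫ v : E3, ‖v‖ ^ n * ‖a (-v)‖ ≤ (∫⁻ ξ, wk n ξ * ‖a ξ‖ₑ).toReal := by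
  have e : ∫ v : E3, ‖v‖ ^ n * ‖a (-v)‖ = ∫ v : E3, ‖v‖ ^ n * ‖a v‖ := by
    have := integral_neg_eq_self (fun v : E3 => ‖v‖ ^ n * ‖a v‖) volume
    simpa using this
  rw [e, integral_eq_lintegral_of_nonneg_ae (ae_of_all _ fun v => by positivity)
    (int_mom ha h n).1]
  refine ENNReal.toReal_mono (h n).ne (lintegral_mono fun v => ?_)
  show ENNReal.ofReal (‖v‖ ^ n * ‖a v‖) ≤ wk n v * ‖a v‖ₑ
  rw [ENNReal.ofReal_mul (by positivity), ofReal_norm]
  gcongr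
  exact ENNReal.ofReal_le_ofReal (pow_le_pow_left₀ (norm_nonneg _) (by linarith) n)

theorem t_FI1 : S_FI1 := by
  refine ⟨fun a ha h => ?_, fun n => ⟨(2 * Real.pi * ‖(innerSL ℝ : E3 →L[ℝ] E3 →L[ℝ] ℝ)‖) ^ n,
    by positivity, fun a ha h x => ?_⟩⟩
  · have e : 𝓕⁻ a = 𝓕 (fun x => a (-x)) := Real.fourierInv_eq_fourier_comp_neg a
    have hn : Integrable fun x => a (-x) := (int_self ha h).comp_neg
    have h1 : Integrable (fun v : E3 => ‖v‖ * ‖a (-v)‖) := by
      have := int_mom_neg ha h 1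
      simpa using this
    refine ⟨?_, fun j x => ?_⟩
    · rw [e]
      exact Real.contDiff_fourier (N := ⊤) fun n _ => int_mom_neg ha h n
    · rw [e, Real.fderiv_fourier hn h1]
      have hI : Integrable (VectorFourier.fourierSMulRight (innerSL ℝ : E3 →L[ℝ] E3 →L[ℝ] ℝ)
          (fun x => a (-x))) := by
        refine Integrable.mono' (h1.const_mul (2 * Real.pi *
          ‖(innerSL ℝ : E3 →L[ℝ] E3 →L[ℝ] ℝ)‖)) ?_ (ae_of_all _ fun v => ?_)
        · exact hn.1.fourierSMulRight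
        · exact (VectorFourier.norm_fourierSMulRight_le _ _ _).trans (le_of_eq (by ring))
      rw [Real.fourier_continuousLinearMap_apply hI, Real.fourierInv_eq_fourier_comp_neg]
      refine congrArg (fun f : E3 → ℂ => 𝓕 f x) (funext fun v => ?_)
      rw [VectorFourier.fourierSMulRight_apply]
      have h2 : (innerSL ℝ : E3 →L[ℝ] E3 →L[ℝ] ℝ) v (EuclideanSpace.single j 1) = v j := by
        rw [innerSL_apply_apply, EuclideanSpace.inner_single_right]
        simp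
      rw [h2]
      simp
      ring
  · have e : 𝓕⁻ a = 𝓕 (fun x => a (-x)) := Real.fourierInv_eq_fourier_comp_neg a
    have hn : Integrable fun x => a (-x) := (int_self ha h).comp_neg
    rw [e, Real.iteratedFDeriv_fourier (N := ⊤) (fun k _ => int_mom_neg ha h k) hn.1
      (n := n) le_top]
    have h3 := VectorFourier.norm_fourierIntegral_le_integral_norm Real.fourierChar volume
      (innerSL ℝ : E3 →L[ℝ] E3 →L[ℝ] ℝ).toLinearMap₁₂
      (fun v => VectorFourier.fourierPowSMulRight (innerSL ℝ : E3 →L[ℝ] E3 →L[ℝ] ℝ)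
        (fun x => a (-x)) v n) x
    refine (le_trans h3 ?_)
    calc ∫ v : E3, ‖VectorFourier.fourierPowSMulRight (innerSL ℝ : E3 →L[ℝ] E3 →L[ℝ] ℝ)
          (fun x => a (-x)) v n‖
        ≤ ∫ v : E3, (2 * Real.pi * ‖(innerSL ℝ : E3 →L[ℝ] E3 →L[ℝ] ℝ)‖) ^ n *
          (‖v‖ ^ n * ‖a (-v)‖) := by
          refine integral_mono_of_nonneg (ae_of_all _ fun v => norm_nonneg _)
            ((int_mom_neg ha h n).const_mul _) (ae_of_all _ fun v => ?_)
          exact (VectorFourier.norm_fourierPowSMulRight_le _ _ _ _).trans (le_of_eq (by ring))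
      _ = (2 * Real.pi * ‖(innerSL ℝ : E3 →L[ℝ] E3 →L[ℝ] ℝ)‖) ^ n *
          ∫ v : E3, ‖v‖ ^ n * ‖a (-v)‖ := integral_const_mul _ _
      _ ≤ _ := mul_le_mul_of_nonneg_left (int_le ha h n) (by positivity)

end Pool.Agent.Run7.h997.AX
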