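import Pool.Agent.Run7.h997.AX.FI1

/-!
Piece FI3 of project AX (helper148): symmetries of `phy`.
-/

set_option autoImplicit false

open MeasureTheory Set Filter Topology
open scoped ENNReal ContDiff FourierTransform
open Pool.Agent.Run7.h148.AX

namespace Pool.Agent.Run7.h997.AX

lemma mom_coord {a : E3 → C3} (h : ∀ k : ℕ, (∫⁻ ξ, wk k ξ * ‖a ξ‖ₑ) < ⊤) (j : Fin 3) :
    ∀ k : ℕ, (∫⁻ ξ, wk k ξ * ‖a ξ j‖ₑ) < ⊤ := by
  intro k
  refine lt_of_le_of_lt (lintegral_mono fun ξ => ?_) (h k)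
  show wk k ξ * ‖a ξ j‖ₑ ≤ wk k ξ * ‖a ξ‖ₑ
  gcongr
  rw [← ofReal_norm, ← ofReal_norm]
  exact ENNReal.ofReal_le_ofReal (norm_le_pi_norm (a ξ) j)

lemma inv_eq3 (b : E3 → ℂ) (x : E3) : 𝓕⁻ b x =
    ∫ ξ, Complex.exp ((↑(2 * Real.pi * inner ℝ ξ x) : ℂ) * Complex.I) • b ξ :=
  Real.fourierInv_eq' b x

lemma inv_int (x : E3) {b : E3 → ℂ} (hb : Integrable b) :
    Integrable fun ξ => Complex.exp ((↑(2 * Real.pi * inner ℝ ξ x) : ℂ) * Complex.I) • b ξ := by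
  refine Integrable.mono' hb.norm ?_ (ae_of_all _ fun ξ => ?_)
  · have hc : Continuous fun ξ : E3 =>
        Complex.exp ((↑(2 * Real.pi * inner ℝ ξ x) : ℂ) * Complex.I) := by fun_prop
    exact hc.aestronglyMeasurable.smul hb.1
  · rw [norm_smul, Complex.norm_exp_ofReal_mul_I, one_mul]

lemma inv_add {b c : E3 → ℂ} (hb : Integrable b) (hc : Integrable c) (x : E3) :
    𝓕⁻ (fun ξ => b ξ + c ξ) x = 𝓕⁻ b x + 𝓕⁻ c x := by
  rw [inv_eq3, inv_eq3, inv_eq3, ← integral_add (inv_int x hb) (inv_int x hc)]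
  refine integral_congr_ae (ae_of_all _ fun ξ => ?_)
  show _ • (b ξ + c ξ) = _
  rw [smul_add]

lemma inv_mul (c : ℂ) (b : E3 → ℂ) (x : E3) : 𝓕⁻ (fun ξ => c * b ξ) x = c * 𝓕⁻ b x := by
  rw [inv_eq3, inv_eq3, ← integral_const_mul]
  refine integral_congr_ae (ae_of_all _ fun ξ => ?_)
  simp only [smul_eq_mul]
  ring

lemma inv_real {b : E3 → ℂ} (hb : ∀ ξ, b (-ξ) = (starRingEnd ℂ) (b ξ)) (x : E3) :
    (((𝓕⁻ b x).re : ℝ) : ℂ) = 𝓕⁻ b x := by
  refine Complex.conj_eq_iff_re.1 ?_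
  rw [inv_eq3, ← integral_conj,
    ← integral_neg_eq_self (fun ξ => Complex.exp
      ((↑(2 * Real.pi * inner ℝ ξ x) : ℂ) * Complex.I) • b ξ) volume]
  refine integral_congr_ae (ae_of_all _ fun ξ => ?_)
  simp only [smul_eq_mul, map_mul]
  rw [hb, ← Complex.exp_conj]
  congr 2
  rw [map_mul, Complex.conj_ofReal, Complex.conj_I, inner_neg_left]
  push_cast
  ring

lemma norm_rt (θ : ℝ) (x : E3) : ‖rt θ x‖ = ‖x‖ := by
  rw [EuclideanSpace.norm_eq, EuclideanSpace.norm_eq]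
  congr 1
  simp only [Fin.sum_univ_three, rt, Real.norm_eq_abs, sq_abs]
  simp
  have := Real.sin_sq_add_cos_sq θ
  linear_combination (x 0 ^ 2 + x 1 ^ 2) * this

/-- `rt θ` as a linear map -/
noncomputable def rtL (θ : ℝ) : E3 →ₗ[ℝ] E3 where
  toFun := rt θ
  map_add' := by
    intro x y
    ext i
    fin_cases i <;> simp [rt] <;> ring
  map_smul' := by
    intro c x
    ext i
    fin_cases i <;> simp [rt] <;> ring

/-- `rt θ` as an isometry -/
noncomputable def rtI (θ : ℝ) : E3 →ₗᵢ[ℝ] E3 := ⟨rtL θ, norm_rt θ⟩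

/-- `rt θ` as an isometric equivalence -/
noncomputable def rtE (θ : ℝ) : E3 ≃ₗᵢ[ℝ] E3 := (rtI θ).toLinearIsometryEquiv rfl

lemma rtE_apply (θ : ℝ) (x : E3) : rtE θ x = rt θ x := rfl

lemma inv_rt (b : E3 → ℂ) (θ : ℝ) (x : E3) : 𝓕⁻ b (rt θ x) = 𝓕⁻ (fun ξ => b (rt θ ξ)) x :=
  (Real.fourierInv_comp_linearIsometry (rtE θ) b x).symm

theorem t_FI3 : S_FI1 → S_FI3 := by
  intro hF a ha h
  have hc : ∀ j, Measurable fun ξ => a ξ j := fun j => (measurable_pi_apply j).comp ha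
  have hi : ∀ j, Integrable fun ξ => a ξ j := fun j => int_self (hc j) (mom_coord h j)
  have hcd : ∀ j, ContDiff ℝ ∞ (𝓕⁻ fun ξ => a ξ j) := fun j =>
    (hF.1 _ (hc j) (mom_coord h j)).1
  refine ⟨fun hH x k => ?_, fun hH hR => ?_, fun hH hD x => ?_, ?_⟩
  · exact inv_real (fun ξ => hH ξ k) x
  · intro θ x
    have e : ∀ k, (phy a (rt θ x)) k = (𝓕⁻ (fun ξ => rc θ (a ξ) k) x).re := by
      intro k
      show (𝓕⁻ (fun ξ => a ξ k) (rt θ x)).re = _
      rw [inv_rt]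
      simp only [hR θ]
    ext k
    rw [e k]
    fin_cases k
    · show (𝓕⁻ (fun ξ => (Real.cos θ : ℂ) * a ξ 0 - (Real.sin θ : ℂ) * a ξ 1) x).re
        = Real.cos θ * (𝓕⁻ (fun ξ => a ξ 0) x).re - Real.sin θ * (𝓕⁻ (fun ξ => a ξ 1) x).re
      have e2 : (fun ξ => (Real.cos θ : ℂ) * a ξ 0 - (Real.sin θ : ℂ) * a ξ 1)
          = fun ξ => (Real.cos θ : ℂ) * a ξ 0 + (-(Real.sin θ : ℂ)) * a ξ 1 := by
        funext ξ; ring
      rw [e2, inv_add ((hi 0).const_mul _) ((hi 1).const_mul _), inv_mul, inv_mul]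
      simp only [Complex.add_re, Complex.re_ofReal_mul, ← Complex.ofReal_neg]
      ring
    · show (𝓕⁻ (fun ξ => (Real.sin θ : ℂ) * a ξ 0 + (Real.cos θ : ℂ) * a ξ 1) x).re
        = Real.sin θ * (𝓕⁻ (fun ξ => a ξ 0) x).re + Real.cos θ * (𝓕⁻ (fun ξ => a ξ 1) x).re
      rw [inv_add ((hi 0).const_mul _) ((hi 1).const_mul _), inv_mul, inv_mul]
      simp only [Complex.add_re, Complex.re_ofReal_mul]
    · rfl
  · have hp : ∀ j, pd j (fun y => phy a y j) x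
        = (𝓕⁻ (fun ξ => 2 * Real.pi * Complex.I * (ξ j : ℂ) * a ξ j) x).re := by
      intro j
      rw [← (hF.1 _ (hc j) (mom_coord h j)).2 j x]
      have hd : HasFDerivAt (fun y => 𝓕⁻ (fun ξ => a ξ j) y)
          (fderiv ℝ (𝓕⁻ fun ξ => a ξ j) x) x :=
        ((hcd j).differentiable (by simp) x).hasFDerivAt
      have h2 := Complex.reCLM.hasFDerivAt.comp x hd
      have h3 : fderiv ℝ (fun y => phy a y j) x
          = Complex.reCLM.comp (fderiv ℝ (𝓕⁻ fun ξ => a ξ j) x) := h2.fderiv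
      unfold pd
      rw [h3]
      rfl
    have hI : ∀ j, Integrable fun ξ : E3 => 2 * Real.pi * Complex.I * (ξ j : ℂ) * a ξ j := by
      intro j
      have h1 := int_mom (hc j) (mom_coord h j) 1
      simp only [pow_one] at h1
      refine Integrable.mono' (h1.const_mul (2 * Real.pi)) ?_ (ae_of_all _ fun ξ => ?_)
      · have h4 : Continuous fun ξ : E3 => 2 * Real.pi * Complex.I * (ξ j : ℂ) := by fun_prop
        exact h4.aestronglyMeasurable.mul (hi j).1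
      · have h5 : |ξ j| ≤ ‖ξ‖ := by simpa using PiLp.norm_apply_le ξ j
        simp only [norm_mul, Complex.norm_real, Complex.norm_I, Real.norm_eq_abs,
          Complex.norm_ofNat, abs_of_pos Real.pi_pos, mul_one]
        have h6 := norm_nonneg (a ξ j)
        have h7 := Real.pi_pos
        calc 2 * Real.pi * |ξ j| * ‖a ξ j‖ ≤ 2 * Real.pi * ‖ξ‖ * ‖a ξ j‖ := by gcongr
          _ = _ := by ring
    simp only [hp]
    have hI01 : Integrable fun ξ : E3 => 2 * Real.pi * Complex.I * (ξ 0 : ℂ) * a ξ 0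
        + 2 * Real.pi * Complex.I * (ξ 1 : ℂ) * a ξ 1 := (hI 0).add (hI 1)
    rw [Fin.sum_univ_three, ← Complex.add_re, ← Complex.add_re, ← inv_add (hI 0) (hI 1),
      ← inv_add hI01 (hI 2)]
    have e3 : (fun ξ : E3 => 2 * Real.pi * Complex.I * (ξ 0 : ℂ) * a ξ 0
        + 2 * Real.pi * Complex.I * (ξ 1 : ℂ) * a ξ 1
        + 2 * Real.pi * Complex.I * (ξ 2 : ℂ) * a ξ 2) = fun ξ => (0 : ℂ) * a ξ 0 := by
      funext ξ
      have h8 := hD ξ
      unfold dt at h8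
      rw [Fin.sum_univ_three] at h8
      linear_combination (2 * Real.pi * Complex.I) * h8
    rw [e3, inv_mul]
    simp
  · rw [contDiff_euclidean]
    intro i
    exact Complex.reCLM.contDiff.comp (hcd i)

end Pool.Agent.Run7.h997.AX
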