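import Pool.Agent.Run7.h148.AX.Stm1

/-!
Piece FI5 of project AX (helper148): differentiation under the inverse Fourier transform.
-/

set_option autoImplicit false

open MeasureTheory Set Filter Topology
open scoped ENNReal ContDiff FourierTransform
open Pool.Agent.Run7.h148.AX

namespace Pool.Agent.Run7.h997.AX

/-- the character -/
noncomputable def ex (x ξ : E3) : ℂ :=
  Complex.exp ((↑(2 * Real.pi * inner ℝ ξ x) : ℂ) * Complex.I)

lemma norm_ex (x ξ : E3) : ‖ex x ξ‖ = 1 := Complex.norm_exp_ofReal_mul_I _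

lemma cont_ex (x : E3) : Continuous (ex x) := by
  unfold ex
  fun_prop

lemma int_ex (x : E3) {b : E3 → ℂ} (hb : Integrable b) : Integrable fun ξ => ex x ξ • b ξ := by
  refine Integrable.mono' hb.norm ?_ (ae_of_all _ fun ξ => ?_)
  · exact (cont_ex x).aestronglyMeasurable.smul hb.1
  · rw [norm_smul, norm_ex, one_mul]

lemma inv_eq (b : E3 → ℂ) (x : E3) : 𝓕⁻ b x = ∫ ξ, ex x ξ • b ξ := Real.fourierInv_eq' b x

theorem t_FI5 : S_FI5 := by
  intro a a' ha ha' hT hT' hd t ht x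
  have hm : ∀ s, Measurable (a s) := fun s =>
    ha.comp (measurable_const.prodMk measurable_id : Measurable fun ξ : E3 => (s, ξ))
  have hi : ∀ s, 0 ≤ s → Integrable (a s) := by
    intro s hs
    obtain ⟨M, hM⟩ := hT.2 0 s
    refine ⟨(hm s).aestronglyMeasurable, ?_⟩
    have h0 := (hM s ⟨hs, le_rfl⟩).1
    refine lt_of_le_of_lt ?_ (lt_of_le_of_lt h0 ENNReal.coe_lt_top)
    refine lintegral_mono fun ξ => ?_
    show ‖a s ξ‖ₑ ≤ wk 0 ξ * ‖a s ξ‖ₑ
    simp [wk]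
  obtain ⟨M, hM⟩ := hT'.2 4 (t + 1)
  have hb : ∀ s ∈ Icc 0 (t + 1), ∀ ξ, ‖a' s ξ‖ ≤ M * (1 + ‖ξ‖) ^ (-4 : ℝ) := by
    intro s hs ξ
    have h1 := (hM s hs).2 ξ
    have h2 : (1 + ‖ξ‖) ^ 4 * ‖a' s ξ‖ ≤ M := by
      have h3 : ENNReal.ofReal ((1 + ‖ξ‖) ^ 4 * ‖a' s ξ‖) ≤ ENNReal.ofReal M := by
        rw [ENNReal.ofReal_mul (by positivity), ofReal_norm, ENNReal.ofReal_coe_nnreal]
        exact h1
      exact (ENNReal.ofReal_le_ofReal_iff M.2).1 h3
    have h4 : (0 : ℝ) < (1 + ‖ξ‖) ^ 4 := by positivity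
    rw [show (-4 : ℝ) = -((4 : ℕ) : ℝ) by norm_num, Real.rpow_neg (by positivity),
      Real.rpow_natCast, ← div_eq_mul_inv, le_div_iff₀ h4, mul_comm]
    exact h2
  have hint : Integrable fun ξ : E3 => (M : ℝ) * (1 + ‖ξ‖) ^ (-4 : ℝ) :=
    (integrable_one_add_norm (by simp; norm_num)).const_mul _
  have hmv : ∀ s ∈ Icc 0 (t + 1), ∀ ξ,
      ‖a s ξ - a t ξ‖ ≤ M * (1 + ‖ξ‖) ^ (-4 : ℝ) * ‖s - t‖ := by
    intro s hs ξ
    exact Convex.norm_image_sub_le_of_norm_hasDerivWithin_le (f := fun u => a u ξ)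
      (f' := fun u => a' u ξ) (s := Icc 0 (t + 1))
      (fun u hu => (hd u hu.1 ξ).mono Icc_subset_Ici_self) (fun u hu => hb u hu ξ)
      (convex_Icc _ _) ⟨ht, by linarith⟩ hs
  rw [hasDerivWithinAt_iff_tendsto_slope]
  have key : Tendsto (fun s => ∫ ξ, ex x ξ • slope (fun u => a u ξ) t s)
      (𝓝[Ici 0 \ {t}] t) (𝓝 (∫ ξ, ex x ξ • a' t ξ)) := by
    refine tendsto_integral_filter_of_dominated_convergence
      (fun ξ => (M : ℝ) * (1 + ‖ξ‖) ^ (-4 : ℝ)) ?_ ?_ hint ?_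
    · refine Eventually.of_forall fun s => ?_
      refine (cont_ex x).aestronglyMeasurable.smul ?_
      simp only [slope_def_module]
      exact ((hm s).sub (hm t)).aestronglyMeasurable.const_smul _
    · have h5 : ∀ᶠ s in 𝓝[Ici 0 \ {t}] t, s ∈ Icc 0 (t + 1) ∧ s ≠ t := by
        have h6 : ∀ᶠ s in 𝓝[Ici 0 \ {t}] t, s < t + 1 :=
          nhdsWithin_le_nhds (Iio_mem_nhds (by linarith))
        filter_upwards [h6, self_mem_nhdsWithin] with s h7 h8
        exact ⟨⟨h8.1, h7.le⟩, h8.2⟩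
      filter_upwards [h5] with s hs
      refine ae_of_all _ fun ξ => ?_
      rw [norm_smul, norm_ex, one_mul, slope_def_module, norm_smul, norm_inv]
      have h9 : 0 < ‖s - t‖ := norm_pos_iff.2 (sub_ne_zero.2 hs.2)
      rw [inv_mul_le_iff₀ h9, mul_comm]
      exact hmv s hs.1 ξ
    · refine ae_of_all _ fun ξ => ?_
      exact (hasDerivWithinAt_iff_tendsto_slope.1 (hd t ht ξ)).const_smul _
  rw [inv_eq]
  refine key.congr' ?_
  filter_upwards [self_mem_nhdsWithin] with s hs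
  rw [slope_def_module, inv_eq, inv_eq,
    ← integral_sub (int_ex x (hi s hs.1)) (int_ex x (hi t ht)), ← integral_smul]
  refine integral_congr_ae (ae_of_all _ fun ξ => ?_)
  show ex x ξ • slope (fun u => a u ξ) t s = (s - t)⁻¹ • (ex x ξ • a s ξ - ex x ξ • a t ξ)
  rw [slope_def_module, ← smul_sub, smul_comm]

end Pool.Agent.Run7.h997.AX
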